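import Pool.Agent.Helper70_ct.Ct8

/-!
# The Kunneth standard conjecture is a statement about one class

Let `H` be a Weil cohomology theory with coefficient field `K` and `X` a variety of dimension `d`. As in
the problem a class is called algebraic if it is in the `K`-span of the classes of cycles, and `C(X)`
says that all Kunneth components of the diagonal are algebraic.

**One class.** Let `b` be the dimension of `H(X)` and let `δ` be a generator of the line
`⨂_i det H^i(X)`, the tensor product of the top exterior powers of all cohomology groups, which is
embedded in `H(X ^ b)` by antisymmetrisation in each degree. Then `C(X)` holds if and only if the single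
class `δ ⊠ δ` on `X ^ b × X ^ b` is algebraic; it suffices that some power `δ ⊠ ... ⊠ δ` is. So the
conjecture for `X` is a statement about one class on one variety, and over the complex numbers, where
`δ ⊠ δ` is a Hodge class because a rational Hodge structure of dimension one is a Tate twist, it
is the Hodge conjecture for this class.

**One degree.** For each `i` the Kunneth component `π^i` is algebraic if and only if the class
`δ_x ⊠ δ_y` is algebraic, where `x` and `y` are bases of `H^(2d - i)(X)` and `H^i(X)` with `n + 1`
elements and `δ_x`, `δ_y` are their antisymmetrised products, generators of the lines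
`det H^(2d - i)(X)` and `det H^i(X)`. Again some positive power of this class suffices. In the middle
degree `π^d` is algebraic if and only if the square, or some positive power, of the line `det H^d(X)` is
algebraic, and for `d` odd if and only if the line `det H^d(X)` itself is algebraic.

Proof. Let `v` be a homogeneous basis of `H(X)` with the degrees `e` and `w` the dual basis. The form
`γ_i = ∑ w_b ⊠ v_b`, the sum over the `b` with `e_b = i`, induces `π^i` up to sign
(`gform_iff_kunneth`). If all `γ_i` are algebraic, then so is the product `γ_{e 0} ⊠ ... ⊠ γ_{e n}`, a
sum over all words with the right degrees, and its antisymmetrisation over the permutations which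
preserve the degrees, in which only the words without repetitions survive: this is `δ_w ⊠ δ_v`
(`det_clC`). Conversely, the partial diagonal which identifies all but one of the factors of the
two sides contracts `δ_w ⊠ δ_v` to a nonzero multiple of `γ_i`, where `i` is the degree of the omitted
slot (`form_last`, `form_C`). By Poincare duality the degrees of `w` are those of `v` in another order, and
two homogeneous bases with the same degrees give proportional classes (`cdet_change`), so that `δ_w` is,
up to a constant, the pull-back of `δ_v` under a permutation of the factors (`cdet_any`). Powers are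
contracted by means of this permutation (`square_of_power_s`, `pair_of_power`). In the middle odd degree
the pairing is alternating and the top power of a nondegenerate two-form is not zero (`det_oddV`).
-/

open CategoryTheory AlgebraicGeometry

universe u v

namespace Pool.Agent.Results.MP_a60482_ag.OneClass

open Pool.Agent.H914 Pool.Agent.H914.VarClass Pool.Agent.H914.VarClass.Obj
  Pool.Agent.H914.WeilCohomology Pool.Agent.Helper70Ls Pool.Agent.Helper70Ct

/-- **The Kunneth standard conjecture and the determinants of the cohomology groups.** -/
theorem result {k : Type u} [Field k] {𝒱 : VarClass k} {ops : CycleOps 𝒱}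
    (W : WeilCohomology.{u, v} ops) (X : 𝒱.Obj) :
    (∀ n e v, IsHomBasis W X ⊤ n e v → List.TFAE [
      ∀ i, KunnethAlgebraic W X i,
      PowerAlg W (pow X n) (∑ j, e j) 1 (cdet W n e v),
      ∃ m, PowerAlg W (pow X n) (∑ j, e j) m (cdet W n e v)]) ∧
    ((∃ a : W.H X, a ≠ 0) → ∃ n e v, IsHomBasis W X ⊤ n e v) ∧
    (∀ i ≤ 2 * X.dim, ∀ n x y, IsBasisOf W X (2 * X.dim - i) n x → IsBasisOf W X i n y →
      List.TFAE [
        KunnethAlgebraic W X i,
        PowerAlg W (pow (pow X n) 1) (2 * X.dim * (n + 1)) 0 (pairClass W n x y),
        ∃ m, PowerAlg W (pow (pow X n) 1) (2 * X.dim * (n + 1)) m (pairClass W n x y)]) ∧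
    ∀ n y, IsBasisOf W X X.dim n y → List.TFAE [
        KunnethAlgebraic W X X.dim,
        PowerAlg W (pow X n) (X.dim * (n + 1)) 1 (detClass W n y),
        ∃ m, PowerAlg W (pow X n) (X.dim * (n + 1)) m (detClass W n y)] ∧
      (Odd X.dim → (KunnethAlgebraic W X X.dim ↔
        PowerAlg W (pow X n) (X.dim * (n + 1)) 0 (detClass W n y))) :=
  ⟨fun _ _ _ h => kunneth_one_tfae h, exists_homBasis,
    fun _ hi _ _ _ hx hy => kunneth_degree_tfae hi hx hy, fun _ _ hy => kunneth_middle_tfae hy⟩

end Pool.Agent.Results.MP_a60482_ag.OneClass
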